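import Pool.Agent.H46LT.Save

/-! Torsion in class groups of Galois fields: a saving in terms of the discriminants of the fixed
fields of the cyclic normal subgroups of the Galois group. -/

set_option autoImplicit false

namespace Pool.Agent.Results.MP_695920_nt.GaloisSubfieldSaving

open NumberField

/-- For every `n ≥ 2` there is a constant `C` such that for every Galois number field `K` of degree
`n`, every `l ≥ 1` and every real `X ≥ 1` such that `X ≤ |disc (K ^ N)|` for all cyclic normal
subgroups `N` of the Galois group (the trivial subgroup included), the number of ideal classes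
whose `l`-th power is trivial is at most
`C * |disc K| ^ (1 / 2) * (log |disc K|) ^ (n + 1) * X ^ (- 1 / (l n (n - 1) ^ 2))`. -/
theorem result (n : ℕ) (hn : 2 ≤ n) : ∃ C : ℝ, 0 < C ∧
    ∀ (K : Type) [Field K] [NumberField K] [IsGalois ℚ K], Module.finrank ℚ K = n →
    ∀ l : ℕ, 1 ≤ l → ∀ X : ℝ, 1 ≤ X →
    (∀ N : Subgroup Gal(K/ℚ), N.Normal → IsCyclic N →
      X ≤ |(discr (IntermediateField.fixedField N) : ℝ)|) →
    (Nat.card {c : ClassGroup (𝓞 K) // c ^ l = 1} : ℝ) ≤
      C * √|(discr K : ℝ)| * (Real.log |(discr K : ℝ)|) ^ (n + 1) *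
        X ^ (-(1 / (l * n * (n - 1) ^ 2) : ℝ)) :=
  Pool.Agent.H46LT.saving_galois n hn

end Pool.Agent.Results.MP_695920_nt.GaloisSubfieldSaving
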