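import Pool.Agent.H85G.F
import Pool.Agent.H85G.G
import Pool.Agent.N794.CG.Mom

/-!
# Torsion in the class groups of the fields `F(α) = j v` over random integers whose digits have long range interactions

The digits of `v` form a Gibbs measure: the interactions have unbounded range, involve any number of digits, and are neither
small nor translation invariant; the only condition is that they are summable at each position. The a priori measure is an
arbitrary Markov random field with flexible digits (it may have hard constraints) on an arbitrary graph of positions of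
bounded degree. Let `F` be a monic polynomial of degree `n ≥ 2` and let `K_v = ℚ(α)` be a field of degree `n` with
`F(α) = j v`. Then `|Cl(K_v)[ℓ]|` is at most `Y ^ (1 / 2 - 1 / (n (n - 1) ℓ) + o(1))` in the mean of order `m`, for every
`m` and for every fixed large `ℓ`, if the discriminants are at most `Y`, where `b ^ k` is at least a power of `Y`.

Method: for these measures the exponential sums are exponentially small in the number of the positions at which the
frequency has a digit which is not extremal (`Pool.Agent.H85G`: dense sets of positions whose interactions with each other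
have a small total weight, and an expansion of the factors of the remaining interactions). The passage from such exponential
sums to small split primes and to the torsion (Ellenberg and Venkatesh) is from the starting files
(`Pool.Agent.N794.CG.torsion_gen`).

From Mathlib: `𝓞 K`, `ClassGroup`, `NumberField.discr`: the ring of integers, the class group and the discriminant.
-/

set_option autoImplicit false

namespace Pool.Agent.Results.MP_695920_nt.LongRangeGibbsTorsion

open Finset Polynomial NumberField

/-- The digit of `v` at the position `i` in base `b` (the position `0` is the least significant one). -/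
def dig (b v i : ℕ) : ℕ := v / b ^ i % b

/-- The integer which has the digits of `v` at the positions in `S` and the digits of `w` at the other positions below `k`. -/
def splice (b k : ℕ) (S : Finset ℕ) (v w : ℕ) : ℕ := ∑ i ∈ range k, (if i ∈ S then dig b v i else dig b w i) * b ^ i

/-- `v` and `w` have the same digits outside the set `S` of positions. -/
def Off (b : ℕ) (S : Finset ℕ) (v w : ℕ) : Prop := ∀ i, i ∉ S → dig b v i = dig b w i

open Classical in
/-- The closed neighbourhood of the position `i` in the graph `A` on the positions `0, …, k - 1`. -/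
noncomputable def nb (k : ℕ) (A : ℕ → ℕ → Prop) (i : ℕ) : Finset ℕ := (range k).filter fun j => j = i ∨ A i j

open Classical in
/-- The total weight of the integers below `b ^ k` which have the same digits as `v` outside `S`. -/
noncomputable def mass (b k : ℕ) (q : ℕ → ℝ) (S : Finset ℕ) (v : ℕ) : ℝ :=
  ∑ w ∈ (range (b ^ k)).filter (fun w => Off b S w v), q w

/-- The a priori measure: the digits of a random integer `v < b ^ k` (with the probabilities `q v`) form a Markov random
field on a graph `A` of positions with degrees at most `Δ` (for every set `S` of positions and all `v`, `w` which have the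
same digits at the positions outside `S` adjacent to `S`, the product `q v * q w` does not change if `v` and `w` exchange
their digits in `S`), and each digit is flexible: for every `v` with `q v ≠ 0` and every position `i`, there are `x` and `y`
which have the same digits as `v` outside the closed neighbourhood of `i`, which differ from each other exactly at the
position `i`, and whose conditional probabilities, given the digits outside this neighbourhood, are at least `η`. (For
instance, with `Δ = 0`: independent digits, each of which has at least two values with probabilities at least `η`.) -/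
structure RandomField (b k Δ : ℕ) (η : ℝ) (A : ℕ → ℕ → Prop) (q : ℕ → ℝ) : Prop where
  symm : ∀ i j, A i j → A j i
  degree : ∀ i < k, (nb k A i).card ≤ Δ + 1
  nonneg : ∀ v, 0 ≤ q v
  sum : ∑ v ∈ range (b ^ k), q v = 1
  markov : ∀ S : Finset ℕ, ∀ v < b ^ k, ∀ w < b ^ k, (∀ i ∈ S, ∀ j < k, j ∉ S → A i j → dig b v j = dig b w j) →
    q v * q w = q (splice b k S v w) * q (splice b k S w v)
  flexible : ∀ v < b ^ k, q v ≠ 0 → ∀ i < k, ∃ x < b ^ k, ∃ y < b ^ k, Off b (nb k A i) x v ∧ Off b {i} y x ∧
    dig b y i ≠ dig b x i ∧ η * mass b k q (nb k A i) v ≤ q x ∧ η * mass b k q (nb k A i) v ≤ q y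

/-- The interactions `φ X`, for all sets `X ⊆ {0, …, k - 1}` of positions: `φ X v` depends only on the digits of `v` at the
positions in `X`, its absolute value is at most `N X`, and for each position `i` the sum of `exp (r * |X|) * N X` over the
sets `X` which contain `i` is at most `M`. (For instance, pair interactions `φ {i, j}` with `∑ j, N {i, j} ≤ exp (- 2 r) M`
for all `i`, at arbitrary distances.) -/
structure Interaction (b k : ℕ) (M r : ℝ) (φ : Finset ℕ → ℕ → ℝ) (N : Finset ℕ → ℝ) : Prop where
  depends : ∀ X ⊆ range k, ∀ v < b ^ k, ∀ w < b ^ k, (∀ i ∈ X, dig b v i = dig b w i) → φ X v = φ X w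
  bound : ∀ X ⊆ range k, ∀ v < b ^ k, |φ X v| ≤ N X
  summable : ∀ i < k, ∑ X ∈ (range k).powerset.filter (fun X => i ∈ X), Real.exp (r * X.card) * N X ≤ M

/-- The Gibbs weight: the a priori weight times the exponential of the sum of all the interactions. -/
noncomputable def weight (k : ℕ) (q : ℕ → ℝ) (φ : Finset ℕ → ℕ → ℝ) (v : ℕ) : ℝ :=
  q v * Real.exp (∑ X ∈ (range k).powerset, φ X v)

/-- The Gibbs measure: the probability of `v < b ^ k`. -/
noncomputable def gibbs (b k : ℕ) (q : ℕ → ℝ) (φ : Finset ℕ → ℕ → ℝ) (v : ℕ) : ℝ :=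
  weight k q φ v / ∑ w ∈ range (b ^ k), weight k q φ w

lemma field_conv {b k Δ : ℕ} {η : ℝ} {A : ℕ → ℕ → Prop} {q : ℕ → ℝ} (h : RandomField b k Δ η A q) :
    Pool.Agent.N213.GF.Field b k Δ η A q :=
  ⟨h.symm, h.degree, h.nonneg, h.sum, h.markov, h.flexible⟩

lemma inter_conv {b k : ℕ} {M r : ℝ} {φ : Finset ℕ → ℕ → ℝ} {N : Finset ℕ → ℝ} (hb : 2 ≤ b) (h : Interaction b k M r φ N) :
    Pool.Agent.H85G.Inter b k (max M 0) r (fun X v => if X ⊆ range k then φ X v else 0)
      (fun X => if X ⊆ range k then N X else 0) := by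
  have h0 : ∀ X ⊆ range k, 0 ≤ N X := by
    intro X hX
    exact (abs_nonneg _).trans (h.bound X hX 0 (by positivity))
  refine ⟨?_, ?_, ?_, ?_⟩
  · intro X v hv w hw hvw
    split_ifs with hX
    · exact h.depends X hX v hv w hw hvw
    · rfl
  · intro X v hv
    split_ifs with hX
    · exact h.bound X hX v hv
    · rw [abs_zero]
  · intro X
    split_ifs with hX
    · exact h0 X hX
    · exact le_rfl
  · intro i hi
    refine le_trans (le_of_eq ?_) ((h.summable i hi).trans (le_max_left _ _))
    apply sum_congr rfl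
    intro X hX
    rw [mem_filter, mem_powerset] at hX
    beta_reduce
    rw [if_pos hX.1]

lemma energy_conv {k : ℕ} (φ : Finset ℕ → ℕ → ℝ) (v : ℕ) :
    Pool.Agent.H85G.energy k (fun X v => if X ⊆ range k then φ X v else 0) v = ∑ X ∈ (range k).powerset, φ X v := by
  unfold Pool.Agent.H85G.energy
  apply sum_congr rfl
  intro X hX
  beta_reduce
  rw [if_pos (mem_powerset.1 hX)]

lemma gt_conv {b k Δ : ℕ} (hb : 2 ≤ b) {η M r : ℝ} {A : ℕ → ℕ → Prop} {q : ℕ → ℝ} {φ : Finset ℕ → ℕ → ℝ} {N : Finset ℕ → ℝ}
    (hq : RandomField b k Δ η A q) (hφ : Interaction b k M r φ N) :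
    Pool.Agent.H85G.GT b Δ η (max M 0) r k (gibbs b k q φ) := by
  refine ⟨A, q, _, _, field_conv hq, inter_conv hb hφ, ?_⟩
  funext v
  unfold gibbs weight Pool.Agent.H85G.gibbs
  simp only [energy_conv]

/-- the number of the ideal classes of `K` killed by `ℓ` -/
noncomputable def tors (K : Type) [Field K] [NumberField K] (ℓ : ℕ) : ℕ :=
  Nat.card {x : ClassGroup (𝓞 K) // x ^ ℓ = 1}

open Classical in
/-- Let `b ≥ 2`, `Δ`, `η > 0`, `M`, `r > 0` and `m ≥ 1`. There is `δ > 0` such that for `κ ≠ 0`, `n ≥ 2` and `T`, `V` there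
are `B`, `k₀` such that the following holds for all `k ≥ k₀`, all integers `c`, all monic polynomials `F` of degree `n` with
integer coefficients of absolute value at most `k ^ T`, all integers `j ≠ 0` with `|j| ≤ k ^ T`, all `1 ≤ ℓ ≤ k ^ T` and all
`Y ≥ 1`.

Let `S` be a set of integers of absolute value at most `b ^ (V k)` and let `K_u`, `u ∈ S`, be number fields of degree `n`
with discriminant of absolute value at most `Y`, generated by an element `α` with `F(α) = j u`. Let `v < b ^ k` be a random
integer whose digits have the Gibbs distribution of an arbitrary interaction which is summable at each position (with the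
bound `M`), with respect to an arbitrary Markov random field with flexible digits on a graph of positions with degrees at
most `Δ`. Then the mean value of `|Cl(K_u)[ℓ]| ^ m` for `u = c + κ v` (with `0` if `u` is not in `S`) is at most
`(k ^ B Y ^ (1 / 2) max (Y ^ (-1 / (n (n - 1) ℓ)), b ^ (-δ k))) ^ m`. -/
theorem result (b Δ : ℕ) (hb : 2 ≤ b) (η : ℝ) (hη : 0 < η) (M r : ℝ) (hr : 0 < r) (m : ℕ) (hm : 1 ≤ m) : ∃ δ : ℝ, 0 < δ ∧
    ∀ κ : ℤ, κ ≠ 0 → ∀ n : ℕ, 2 ≤ n → ∀ T V : ℕ, ∃ B k₀ : ℕ, ∀ k : ℕ, k₀ ≤ k → ∀ c : ℤ,
    ∀ F : ℤ[X], F.Monic → F.natDegree = n → (∀ i, |F.coeff i| ≤ (k : ℤ) ^ T) →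
    ∀ j : ℤ, j ≠ 0 → |j| ≤ (k : ℤ) ^ T → ∀ ℓ : ℕ, 1 ≤ ℓ → ℓ ≤ k ^ T → ∀ Y : ℝ, 1 ≤ Y →
    ∀ (S : Set ℤ) (K : ℤ → Type) [∀ u, Field (K u)] [∀ u, NumberField (K u)],
    (∀ u ∈ S, |u| ≤ (b : ℤ) ^ (V * k) ∧ Module.finrank ℚ (K u) = n ∧ |(discr (K u) : ℝ)| ≤ Y ∧
      ∃ α : K u, IntermediateField.adjoin ℚ {α} = ⊤ ∧ aeval α F = ((j * u : ℤ) : K u)) →
    ∀ (A : ℕ → ℕ → Prop) (q : ℕ → ℝ), RandomField b k Δ η A q →
    ∀ (φ : Finset ℕ → ℕ → ℝ) (N : Finset ℕ → ℝ), Interaction b k M r φ N →
    ∑ v ∈ range (b ^ k), gibbs b k q φ v * (if c + κ * v ∈ S then (tors (K (c + κ * v)) ℓ : ℝ) ^ m else 0) ≤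
      ((k : ℝ) ^ B * (√Y * max (Y ^ (-(1 / ((n : ℝ) * (n - 1) * ℓ)))) ((b : ℝ) ^ (-(δ * k))))) ^ m := by
  obtain ⟨A₀, γ, hγ0, hγ1, hdom⟩ := Pool.Agent.H85G.good_dom hb
    (Pool.Agent.H85G.gt_good b Δ hb η (max M 0) r hη (le_max_right _ _) hr)
  obtain ⟨W, hW, H⟩ := Pool.Agent.N794.CG.torsion_gen b hb A₀ γ hγ0 hγ1 m hm
  have hWr : (0 : ℝ) < W := by exact_mod_cast hW
  refine ⟨1 / W, by positivity, fun κ hκ n hn T V => ?_⟩
  obtain ⟨B, k₀, J⟩ := H b.factorial κ (Nat.factorial_pos _) hκ n hn T V
  refine ⟨B, k₀, fun k hk c F hF hFn hFc j hj0 hj ℓ hℓ hℓT Y hY S K _ _ hS A q hq φ N hφ => ?_⟩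
  have hp := gt_conv hb hq hφ
  have hG := Pool.Agent.H85G.gt_good b Δ hb η (max M 0) r hη (le_max_right _ _) hr
  have h1 := J k hk F ⟨hF, hFn, hFc⟩ j hj0 hj ℓ hℓ hℓT Y hY S K hS 1 ℕ (range (b ^ k)) (gibbs b k q φ)
    (fun v => c + κ * (v : ℕ)) le_rfl (fun i _ => hG.nonneg k _ hp i) (hG.sum k _ hp).le
    (fun P τ hτ hP => hdom k _ hp κ c P τ hτ hP _ (filter_subset _ _) fun i hi => (mem_filter.1 hi).2)
  have e1 : ((n * (n - 1) * ℓ : ℕ) : ℝ) = (n : ℝ) * (n - 1) * ℓ := by
    rw [Nat.cast_mul, Nat.cast_mul, Nat.cast_sub (by omega), Nat.cast_one]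
  have e2 : (k : ℝ) / W = 1 / W * k := by ring
  rw [e1, e2, one_mul] at h1
  exact h1

end Pool.Agent.Results.MP_695920_nt.LongRangeGibbsTorsion
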