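import Pool.Agent.H37CG.Fin
import Pool.Agent.Results.MP_0f260b_nt.ExchangeableMoments

/-!
# The torsion of the class groups in arbitrary one-parameter families of fields, over sparse sets of parameters

`Exchangeable b L η T k p`, see `Pool.Agent.Results.MP_0f260b_nt.ExchangeableMoments` (starting library): `p` is a probability on
the words of `k` digits in base `b`, read as integers `v < b ^ k`, in which blocks of `L` digits can be exchanged.
From Mathlib: `𝓞 K`, `ClassGroup`, `NumberField.discr`: the ring of integers, the class group and the discriminant;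
`DFA ℕ σ`: deterministic finite automata, `M.accepts`: the words accepted by `M`; `Nat.digits b v`: the digits of `v`, the
least significant digit first; `ℤ[X][X]`: polynomials in `y` with coefficients in `ℤ[x]`.

Method: Noether's irreducibility forms and Weil's bound for plane curves (starting library) show that for all but few primes `p`,
uniformly in `G`, at least `p / (2 n)` of the residues `v` modulo `p` are such that `G(v, y)` has a simple root modulo `p`, so
that the field has a prime ideal of norm `p`; random integers with exponentially small characteristic functions then have many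
such primes at each scale, with a high power saving in the probability of the exceptions, and the argument of Ellenberg
and Venkatesh applies (starting library, `Pool.Agent.R459.Tor`, `Pool.Agent.N794.CG`, where the equation is `F(y) = j v`).
-/

set_option autoImplicit false

namespace Pool.Agent.Results.MP_695920_nt.OneParameterFamilies

open Finset NumberField Filter Polynomial
open Pool.Agent.Results.MP_0f260b_nt.ExchangeableMoments (Exchangeable flex_of)

/-- `G ∈ ℤ[x][y]` is monic of degree `n` in `y`, of degree at most `B` in `x`, with coefficients of absolute value at most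
`M`, and irreducible over the complex numbers. -/
structure Curve (n B : ℕ) (M : ℤ) (G : ℤ[X][X]) : Prop where
  monic : G.Monic
  deg : G.natDegree = n
  degx : ∀ i, (G.coeff i).natDegree ≤ B
  height : ∀ i j, |(G.coeff i).coeff j| ≤ M
  irr : Irreducible (G.map (mapRingHom (Int.castRingHom ℂ)))

/-- For `v` in the set `S` the number field `K v` has degree `n` and a discriminant of absolute value at most `Y`, and it is
generated by a root of `G(v, y)`. -/
def Fields (n : ℕ) (Y : ℝ) (G : ℤ[X][X]) (S : Set ℕ) (K : ℕ → Type) [∀ v, Field (K v)] [∀ v, NumberField (K v)] : Prop :=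
  ∀ v ∈ S, Module.finrank ℚ (K v) = n ∧ |(discr (K v) : ℝ)| ≤ Y ∧
    ∃ α : K v, IntermediateField.adjoin ℚ {α} = ⊤ ∧ aeval α (G.map (evalRingHom (v : ℤ))) = 0

open Classical in
/-- the members `v < N` of the automatic set: the digits of `v` in base `b` are accepted by the automaton `M` -/
noncomputable def members {σ : Type} (b : ℕ) (M : DFA ℕ σ) (N : ℕ) : Finset ℕ :=
  (range N).filter (fun v => Nat.digits b v ∈ M.accepts)

/-- the number of the ideal classes killed by `ℓ` -/
noncomputable def tors (K : Type) [Field K] [NumberField K] (ℓ : ℕ) : ℕ := Nat.card {x : ClassGroup (𝓞 K) // x ^ ℓ = 1}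

open Classical in
/-- Let `r ≥ 1`.

(A) Let `b ≥ 2`, `L ≥ 1`, `0 < η ≤ 1` and `T` be fixed. There is `δ > 0` such that for all `n ≥ 2`, `B` and `U` there are
`E`, `k₀` such that for all `k ≥ k₀`, all probabilities `p` on the words of `k` digits in which blocks of `L` digits can be
exchanged, all `G ∈ ℤ[x][y]` monic of degree `n` in `y`, of degree at most `B` in `x` and with coefficients of absolute value at
most `b ^ (U k)` which are irreducible over `ℂ`, all `ℓ ≤ k ^ U`, all `Y ≥ 1` and all sets `S` of integers `v` and fields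
`K_v`, `v ∈ S`, of degree `n` generated by a root of `G(v, y)`, with discriminant at most `Y` in absolute value, the expectation
of `|Cl(K_v)[ℓ]| ^ r` (with `0` if `v` is not in `S`) for a random `v < b ^ k` with the distribution `p` is at most
`(k ^ E Y ^ (1 / 2) max (Y ^ (-1 / (n (n - 1) ℓ)), b ^ (- δ k))) ^ r`.

(B) Let `A` be an automatic set which for every `j` has more than `(log N) ^ j` members below `N` for infinitely many `N`.
There is `δ > 0` such that for all `n ≥ 2`, `B` and `U` there are `E`, `N₀` such that for all `N ≥ N₀`, all such `G` with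
coefficients of absolute value at most `N ^ U`, all `ℓ ≤ (log N) ^ U`, all `Y ≥ 1` and all such `S`, `K_v` the mean value of
`|Cl(K_v)[ℓ]| ^ r` (with `0` if `v` is not in `S`) over the members `v < N` of `A` is at most
`((log N) ^ E Y ^ (1 / 2) max (Y ^ (-1 / (n (n - 1) ℓ)), N ^ (- δ))) ^ r`. -/
theorem result (r : ℕ) (hr : 1 ≤ r) :
    (∀ b L : ℕ, 2 ≤ b → 1 ≤ L → ∀ η : ℝ, 0 < η → η ≤ 1 → ∀ T : ℕ, ∃ δ : ℝ, 0 < δ ∧ ∀ n B U : ℕ, 2 ≤ n → ∃ E k₀ : ℕ,
      ∀ k : ℕ, k₀ ≤ k → ∀ p : ℕ → ℝ, Exchangeable b L η T k p → ∀ G : ℤ[X][X], Curve n B ((b : ℤ) ^ (U * k)) G →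
      ∀ ℓ : ℕ, 1 ≤ ℓ → ℓ ≤ k ^ U → ∀ Y : ℝ, 1 ≤ Y → ∀ (S : Set ℕ) (K : ℕ → Type) [∀ v, Field (K v)] [∀ v, NumberField (K v)],
      Fields n Y G S K →
      ∑ v ∈ range (b ^ k), p v * (if v ∈ S then (tors (K v) ℓ : ℝ) ^ r else 0) ≤
        ((k : ℝ) ^ E * (√Y * max (Y ^ (-(1 / ((n : ℝ) * (n - 1) * ℓ)))) ((b : ℝ) ^ (-(δ * k))))) ^ r) ∧
    (∀ (σ : Type) [Fintype σ] (b : ℕ), 2 ≤ b → ∀ M : DFA ℕ σ,
      (∀ j : ℕ, ∃ᶠ N : ℕ in atTop, Real.log N ^ j < ((members b M N).card : ℝ)) → ∃ δ : ℝ, 0 < δ ∧ ∀ n B U : ℕ, 2 ≤ n →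
      ∃ E N₀ : ℕ, ∀ N : ℕ, N₀ ≤ N → ∀ G : ℤ[X][X], Curve n B ((N : ℤ) ^ U) G → ∀ ℓ : ℕ, 1 ≤ ℓ → (ℓ : ℝ) ≤ Real.log N ^ U →
      ∀ Y : ℝ, 1 ≤ Y → ∀ (S : Set ℕ) (K : ℕ → Type) [∀ v, Field (K v)] [∀ v, NumberField (K v)], Fields n Y G S K →
      ∑ v ∈ members b M N, (if v ∈ S then (tors (K v) ℓ : ℝ) ^ r else 0) ≤ (members b M N).card *
        (Real.log N ^ E * (√Y * max (Y ^ (-(1 / ((n : ℝ) * (n - 1) * ℓ)))) ((N : ℝ) ^ (-δ)))) ^ r) := by
  have hcast : ∀ n ℓ : ℕ, 2 ≤ n → ((n * (n - 1) * ℓ : ℕ) : ℝ) = (n : ℝ) * (n - 1) * ℓ := by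
    intro n ℓ hn
    rw [Nat.cast_mul, Nat.cast_mul, Nat.cast_sub (by omega), Nat.cast_one]
  have hC : ∀ {n B : ℕ} {M : ℤ} {G : ℤ[X][X]}, Curve n B M G → Pool.Agent.H37CG.Curve n B M G :=
    fun h => ⟨h.monic, h.deg, h.degx, h.height, h.irr⟩
  refine ⟨fun b L hb hL η hη0 hη1 T => ?_, fun σ _ b hb M hM => ?_⟩
  · obtain ⟨δ, hδ, H⟩ := Pool.Agent.H37CG.exch b L hb hL η hη0 hη1 T r hr
    refine ⟨δ, hδ, fun n B U hn => ?_⟩
    obtain ⟨E, k₀, J⟩ := H n B U hn
    refine ⟨E, k₀, fun k hk p hp G hG ℓ hℓ hℓU Y hY S K _ _ hS => ?_⟩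
    have h1 := J k hk p (flex_of hp) G (hC hG) ℓ hℓ hℓU Y hY S K hS
    rw [hcast n ℓ hn] at h1
    exact h1
  · have hmem : ∀ N, Pool.Agent.N794.CG.mem b M N = members b M N := by
      intro N
      unfold Pool.Agent.N794.CG.mem members
      rfl
    obtain ⟨δ, hδ, H⟩ := Pool.Agent.H37CG.aut b hb M (by
      intro j
      refine (hM j).mono fun N hN => ?_
      rw [hmem]
      exact hN) r hr
    refine ⟨δ, hδ, fun n B U hn => ?_⟩
    obtain ⟨E, N₀, J⟩ := H n B U hn
    refine ⟨E, N₀, fun N hN G hG ℓ hℓ hℓU Y hY S K _ _ hS => ?_⟩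
    have h1 := J N hN G (hC hG) ℓ hℓ hℓU Y hY S K hS
    rw [hcast n ℓ hn, hmem] at h1
    exact h1

end Pool.Agent.Results.MP_695920_nt.OneParameterFamilies
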