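import Pool.Agent.H46LT.Gen3

/-! A power saving for the torsion of class groups under a condition on the Galois group of the
normal closure and the normal subgroups whose fixed fields have small discriminant. -/

set_option autoImplicit false

namespace Pool.Agent.Results.MP_695920_nt.RootSetCriterion

open NumberField

/-- For a subfield `K` of a Galois number field `L` and a subgroup `N` of the Galois group: the set
of those `x` such that for every conjugate `y K` of `K` and every `ν` in `N` some power of `x`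
agrees with `ν` on `y K`.  In other words, every orbit of `⟨x⟩` on the embeddings of `K` in `L` is a
union of orbits of `N`. -/
def rootSet {L : Type} [Field L] [NumberField L] (K : IntermediateField ℚ L)
    (N : Subgroup Gal(L/ℚ)) : Set Gal(L/ℚ) :=
  {x | ∀ y : Gal(L/ℚ), ∀ ν ∈ N, ∃ k : ℤ, ∀ a ∈ K, ν (y a) = (x ^ k) (y a)}

/-- The condition on `N`: there is a subgroup `V` of the Galois group containing `N` such that every
element of `rootSet K N` fixes at least two cosets of `V`. -/
def Admissible {L : Type} [Field L] [NumberField L] (K : IntermediateField ℚ L)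
    (N : Subgroup Gal(L/ℚ)) : Prop :=
  ∃ V : Subgroup Gal(L/ℚ), N ≤ V ∧ ∀ x ∈ rootSet K N,
    2 ≤ Nat.card (MulAction.fixedBy (Gal(L/ℚ) ⧸ V) x)

/-- The absolute value of the discriminant. -/
noncomputable def absDisc {L : Type} [Field L] [NumberField L] (K : IntermediateField ℚ L) : ℝ :=
  |(discr K : ℝ)|

/-- The number of ideal classes of `K` whose `l`-th power is trivial. -/
noncomputable def torsion {L : Type} [Field L] [NumberField L] (K : IntermediateField ℚ L)
    (l : ℕ) : ℕ :=
  Nat.card {c : ClassGroup (𝓞 K) // c ^ l = 1}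

/-- For all `n ≥ 2`, `l ≥ 1` and `η > 0` there are `c, δ, C > 0` with the following property.  Let
`K` be a number field of degree `n` with normal closure `L` over `ℚ`, and let `N₀` be a normal
subgroup of the Galois group `G` of `L` such that `|disc (L ^ N₀)| ≤ |disc K| ^ c`.  Suppose that
for every nontrivial normal subgroup `N` of `G` contained in `N₀` with
`|disc (L ^ N)| ≤ |disc K| ^ η` there is a subgroup `V` of `G` containing `N` such that every
element of `rootSet K N` fixes at least two cosets of `V`.  Then at most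
`C * |disc K| ^ (1 / 2 - δ)` ideal classes of `K` have trivial `l`-th power. -/
theorem result (n l : ℕ) (hn : 2 ≤ n) (hl : 1 ≤ l) (η : ℝ) (hη : 0 < η) :
    ∃ c δ C : ℝ, 0 < c ∧ 0 < δ ∧ 0 < C ∧
    ∀ (L : Type) [Field L] [NumberField L] [IsGalois ℚ L] (K : IntermediateField ℚ L),
    Module.finrank ℚ K = n → IntermediateField.normalClosure ℚ K L = ⊤ →
    ∀ N₀ : Subgroup Gal(L/ℚ), N₀.Normal →
    absDisc (IntermediateField.fixedField N₀) ≤ absDisc K ^ c →
    (∀ N : Subgroup Gal(L/ℚ), N.Normal → N ≤ N₀ → N ≠ ⊥ →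
      absDisc (IntermediateField.fixedField N) ≤ absDisc K ^ η → Admissible K N) →
    (torsion K l : ℝ) ≤ C * absDisc K ^ (1 / 2 - δ) :=
  Pool.Agent.H46LT.criterion n l hn hl η hη

/-- The case of Galois fields, stated for an abstract Galois field: if for every nontrivial cyclic
normal subgroup `N` of the Galois group the elements `g` with `N ≤ ⟨g⟩` generate a proper subgroup,
then there is a power saving. -/
theorem galois (n l : ℕ) (hn : 2 ≤ n) (hl : 1 ≤ l) : ∃ δ C : ℝ, 0 < δ ∧ 0 < C ∧
    ∀ (K : Type) [Field K] [NumberField K] [IsGalois ℚ K], Module.finrank ℚ K = n →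
    (∀ N : Subgroup Gal(K/ℚ), N.Normal → IsCyclic N → N ≠ ⊥ →
      Subgroup.closure {g : Gal(K/ℚ) | N ≤ Subgroup.zpowers g} ≠ ⊤) →
    (Nat.card {c : ClassGroup (𝓞 K) // c ^ l = 1} : ℝ) ≤
      C * |(discr K : ℝ)| ^ (1 / 2 - δ) :=
  Pool.Agent.H46LT.galois_saving n l hn hl

/-- The condition of `galois` holds for every group with trivial centre. -/
theorem centreless {G : Type} [Group G] (h : Subgroup.center G = ⊥) (N : Subgroup G)
    (hb : N ≠ ⊥) : Subgroup.closure {g : G | N ≤ Subgroup.zpowers g} ≠ ⊤ := by
  intro htop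
  apply hb
  rw [eq_bot_iff, ← h]
  intro x hx
  rw [Subgroup.mem_center_iff]
  have h1 : Subgroup.closure {g : G | N ≤ Subgroup.zpowers g} ≤ Subgroup.centralizer {x} := by
    rw [Subgroup.closure_le]
    intro g hg
    obtain ⟨k, hk⟩ := hg hx
    rw [SetLike.mem_coe, Subgroup.mem_centralizer_iff]
    intro y hy
    rw [Set.mem_singleton_iff] at hy
    rw [hy, ← hk]
    exact ((Commute.refl g).zpow_left k).eq
  intro g
  have h2 : g ∈ Subgroup.centralizer {x} := h1 (by rw [htop]; trivial)
  rw [Subgroup.mem_centralizer_iff] at h2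
  exact (h2 x rfl).symm

/-- Galois fields whose Galois group has trivial centre. -/
theorem centreless_saving (n l : ℕ) (hn : 2 ≤ n) (hl : 1 ≤ l) : ∃ δ C : ℝ, 0 < δ ∧ 0 < C ∧
    ∀ (K : Type) [Field K] [NumberField K] [IsGalois ℚ K], Module.finrank ℚ K = n →
    Subgroup.center Gal(K/ℚ) = ⊥ →
    (Nat.card {c : ClassGroup (𝓞 K) // c ^ l = 1} : ℝ) ≤
      C * |(discr K : ℝ)| ^ (1 / 2 - δ) := by
  obtain ⟨δ, C, hδ, hC, h⟩ := galois n l hn hl
  exact ⟨δ, C, hδ, hC, fun K _ _ _ hK hc => h K hK fun N _ _ hb => centreless hc N hb⟩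

end Pool.Agent.Results.MP_695920_nt.RootSetCriterion
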